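import Pool.Agent.Helper50.Ucg.Ext

/-!
# Packet CEX: the projection of the corner is contractive
-/

set_option autoImplicit false

open scoped ComplexOrder

namespace Pool.Agent.Helper50.Ucg

open Pool.Agent.Helper39.Uct Pool.Agent.Helper68.Ucg
open Pool.Agent.Helper10.Uct (subalg)

/-! ## Characters -/

section char

variable {B : Type} [NonUnitalCStarAlgebra B] {V : Submodule ℂ B} {ψ : B →ₗ[ℂ] ℂ} {v : B}

theorem char_mulL (hstar : ∀ x ∈ V, star x ∈ V) (hp : ∀ b, 0 ≤ ψ (star b * b))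
    (hm : ∀ x ∈ V, ∀ y ∈ V, ψ (x * y) = ψ x * ψ y) (hv : v ∈ V) (hv1 : ψ v = 1)
    (hU : ∀ x, ψ (x * v) = ψ x ∧ ψ (v * x) = ψ x) {w : B} (hw : w ∈ V) (x : B) :
    ψ (w * x) = ψ w * ψ x := by
  set k := w - ψ w • v with hk
  have hkV : k ∈ V := V.sub_mem hw (V.smul_mem _ hv)
  have hk0 : ψ k = 0 := by
    rw [hk, map_sub, map_smul, hv1, smul_eq_mul, mul_one, sub_self]
  have h1 : ψ (star (star k) * star k) = 0 := by
    rw [star_star, hm k hkV _ (hstar k hkV), hk0, zero_mul]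
  have h2 := Pool.Agent.Helper49.Uct3.pos_zero hp h1 x
  rw [star_star, hk, sub_mul, smul_mul_assoc, map_sub, map_smul, (hU x).2, smul_eq_mul,
    sub_eq_zero] at h2
  exact h2

theorem char_mulR (hstar : ∀ x ∈ V, star x ∈ V) (hp : ∀ b, 0 ≤ ψ (star b * b))
    (hm : ∀ x ∈ V, ∀ y ∈ V, ψ (x * y) = ψ x * ψ y) (hv : v ∈ V) (hv1 : ψ v = 1)
    (hU : ∀ x, ψ (x * v) = ψ x ∧ ψ (v * x) = ψ x) {w : B} (hw : w ∈ V) (x : B) :
    ψ (x * w) = ψ x * ψ w := by
  set k := w - ψ w • v with hk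
  have hkV : k ∈ V := V.sub_mem hw (V.smul_mem _ hv)
  have hk0 : ψ k = 0 := by
    rw [hk, map_sub, map_smul, hv1, smul_eq_mul, mul_one, sub_self]
  have h1 : ψ (star k * k) = 0 := by
    rw [hm _ (hstar k hkV) k hkV, hk0, mul_zero]
  have h2 := Pool.Agent.Helper49.Uct3.pos_zero hp h1 (star x)
  have h3 := Pool.Agent.Helper49.Uct3.pos_conj hp (star x) k
  rw [h2, star_zero, star_star] at h3
  rw [hk, mul_sub, mul_smul_comm, map_sub, map_smul, (hU x).1, smul_eq_mul] at h3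
  linear_combination -h3

/-- A character that does not vanish takes the value one at a contraction that acts as a
unit. -/
theorem exists_v (hV : IsClosed (V : Set B)) (hmul : ∀ x ∈ V, ∀ y ∈ V, x * y ∈ V)
    (hstar : ∀ x ∈ V, star x ∈ V) (hb : ∀ b, ‖ψ b‖ ≤ ‖b‖) (hp : ∀ b, 0 ≤ ψ (star b * b))
    (hm : ∀ x ∈ V, ∀ y ∈ V, ψ (x * y) = ψ x * ψ y) {q : B} (hq : q ∈ V) (hq0 : ψ q ≠ 0) :
    ∃ v ∈ V, IsSelfAdjoint v ∧ ψ v = 1 ∧ ∀ x, ψ (x * v) = ψ x ∧ ψ (v * x) = ψ x := by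
  have hqs := hstar q hq
  have ht0 : ψ (star q * q) ≠ 0 := by
    intro h
    have h2 := Pool.Agent.Helper49.Uct3.pos_zero hp h (star q)
    have h3 := Pool.Agent.Helper49.Uct3.pos_conj hp (star q) q
    rw [h2, star_zero, star_star, hm q hq q hq] at h3
    rcases mul_eq_zero.1 h3.symm with h4 | h4
    · exact hq0 h4
    · exact hq0 h4
  have hti : (ψ (star q * q)).im = 0 := ((Complex.nonneg_iff.1 (hp q)).2).symm
  set r := (ψ (star q * q)).re with hr
  have hrt : ψ (star q * q) = (r : ℂ) := by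
    apply Complex.ext
    · simp [hr]
    · simp [hti]
  have hr0 : (r : ℂ) ≠ 0 := by
    rw [← hrt]
    exact ht0
  obtain ⟨v, hvV, hvsa, hvn, hv1⟩ := Pool.Agent.Helper49.Uct3.exists_contraction V hV hmul
    hstar ψ hm (z := ((r⁻¹ : ℝ) : ℂ) • (star q * q)) (V.smul_mem _ (hmul _ hqs _ hq))
    (by
      show star (((r⁻¹ : ℝ) : ℂ) • (star q * q)) = ((r⁻¹ : ℝ) : ℂ) • (star q * q)
      rw [star_smul, star_mul, star_star]
      congr 1
      exact Complex.conj_ofReal _)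
    (by
      rw [map_smul, hrt, smul_eq_mul, Complex.ofReal_inv]
      exact inv_mul_cancel₀ hr0)
  exact ⟨v, hvV, hvsa, hv1, Pool.Agent.Helper90.Uct3.uni B ψ hb hp v hvsa hvn hv1⟩

end char

/-! ## The corner -/

section corner

variable {A B : Type} [NonUnitalCStarAlgebra A] [NonUnitalCStarAlgebra B]

/-- `π` as a linear map. -/
def pil (π : A →⋆ₙₐ[ℂ] B) : A →ₗ[ℂ] B where
  toFun := π
  map_add' := map_add π
  map_smul' := map_smul π

/-- Compression by `e`. -/
def cmp (π : A →⋆ₙₐ[ℂ] B) (e : B) : A →ₗ[ℂ] B :=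
  (LinearMap.mulRight ℂ e).comp ((LinearMap.mulLeft ℂ e).comp (pil π))

theorem cmp_apply (π : A →⋆ₙₐ[ℂ] B) (e : B) (x : A) : cmp π e x = e * π x * e := rfl

/-- The commutative corner. -/
def EV (G : Diag A) {m : ℕ} (n : Fin m → A) (d : A) (π : A →⋆ₙₐ[ℂ] B) (e : B) :
    Submodule ℂ B :=
  (Submodule.map (cmp π e) (RR G n d)).topologicalClosure

variable {G : Diag A} {m : ℕ} {n : Fin m → A} {d u g : A} {e : B} {π : A →⋆ₙₐ[ℂ] B}

theorem EV_closed : IsClosed (EV G n d π e : Set B) := Submodule.isClosed_topologicalClosure _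

theorem EV_mem {r : A} (hr : r ∈ RR G n d) : e * π r * e ∈ EV G n d π e :=
  Submodule.le_topologicalClosure _ ⟨r, hr, rfl⟩

theorem EV_ind {S : Set B} (hS : IsClosed S) (h : ∀ r ∈ RR G n d, e * π r * e ∈ S) {x : B}
    (hx : x ∈ EV G n d π e) : x ∈ S := by
  have h1 : (EV G n d π e : Set B) ⊆ S := by
    refine closure_minimal ?_ hS
    rintro _ ⟨r, hr, rfl⟩
    exact h r hr
  exact h1 hx

/-- The facts used below. -/
structure Bas (G : Diag A) {m : ℕ} (n : Fin m → A) (d u : A) (π : A →⋆ₙₐ[ℂ] B) (g : A)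
    (e : B) : Prop where
  cnr : CNR G n d u π g e
  kf : KF G n d
  dd : ∀ x ∈ Dd G d, x ∈ G.D
  cl : IsClosed (π '' (RR G n d : Set A))

variable (h : Bas G n d u π g e)

include h

theorem img_mul {x y : B} (hx : x ∈ π '' (RR G n d : Set A))
    (hy : y ∈ π '' (RR G n d : Set A)) : x * y ∈ π '' (RR G n d : Set A) := by
  obtain ⟨a, ha, rfl⟩ := hx
  obtain ⟨b, hb, rfl⟩ := hy
  exact ⟨a * b, h.kf.mul a ha b hb, map_mul π a b⟩

theorem gR {r : A} (hr : r ∈ RR G n d) : r * g ∈ RR G n d := by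
  have h1 := h.kf.cent g (h.dd g h.cnr.g_mem) r hr
  rw [← h1.2]
  exact h1.1

theorem e_img : e ∈ π '' (RR G n d : Set A) := by
  rw [← h.cl.closure_eq]
  refine closure_mono ?_ h.cnr.e_mem
  rintro _ ⟨r, hr, rfl⟩
  refine ⟨g * r * g, ?_, by rw [map_mul, map_mul]⟩
  exact gR h (h.kf.cent g (h.dd g h.cnr.g_mem) r hr).1

theorem e_D {c : A} (hc : c ∈ G.D) : π c * e = e * π c := by
  obtain ⟨r, hr, rfl⟩ := e_img h
  rw [← map_mul, ← map_mul, (h.kf.cent c hc r hr).2]

theorem EV_img {x : B} (hx : x ∈ EV G n d π e) : x ∈ π '' (RR G n d : Set A) := by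
  refine EV_ind h.cl ?_ hx
  intro r hr
  exact img_mul h (img_mul h (e_img h) ⟨r, hr, rfl⟩) (e_img h)

theorem EV_mul : ∀ x ∈ EV G n d π e, ∀ y ∈ EV G n d π e, x * y ∈ EV G n d π e := by
  have h1 : ∀ s ∈ RR G n d, ∀ x ∈ EV G n d π e, x * (e * π s * e) ∈ EV G n d π e := by
    intro s hs x hx
    refine EV_ind (S := {x | x * (e * π s * e) ∈ EV G n d π e})
      (EV_closed.preimage (continuous_mul_const _)) ?_ hx
    intro r hr
    obtain ⟨t, ht, he⟩ := img_mul h (img_mul h ⟨r, hr, rfl⟩ (e_img h))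
      (img_mul h (e_img h) ⟨s, hs, rfl⟩)
    show e * π r * e * (e * π s * e) ∈ EV G n d π e
    have h2 : e * π r * e * (e * π s * e) = e * π t * e := by
      rw [he]
      noncomm_ring
    rw [h2]
    exact EV_mem ht
  intro x hx y hy
  exact EV_ind (S := {y | x * y ∈ EV G n d π e}) (EV_closed.preimage (continuous_const_mul _))
    (fun s hs => h1 s hs x hx) hy

theorem EV_star : ∀ x ∈ EV G n d π e, star x ∈ EV G n d π e := by
  intro x hx
  refine EV_ind (S := {x | star x ∈ EV G n d π e}) (EV_closed.preimage continuous_star) ?_ hx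
  intro r hr
  show star (e * π r * e) ∈ EV G n d π e
  have h2 : star (e * π r * e) = e * π (star r) * e := by
    rw [star_mul, star_mul, h.cnr.e_sa.star_eq, ← map_star, mul_assoc]
  rw [h2]
  exact EV_mem (h.kf.star r hr)

theorem EV_comm : ∀ x ∈ EV G n d π e, ∀ y ∈ EV G n d π e, x * y = y * x := by
  have h1 : ∀ s ∈ RR G n d, ∀ x ∈ EV G n d π e, x * (e * π s * e) = (e * π s * e) * x := by
    intro s hs x hx
    exact EV_ind (S := {x | x * (e * π s * e) = (e * π s * e) * x})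
      (isClosed_eq (continuous_mul_const _) (continuous_const_mul _))
      (fun r hr => h.cnr.e_comm r hr s hs) hx
  intro x hx y hy
  exact EV_ind (S := {y | x * y = y * x})
    (isClosed_eq (continuous_const_mul _) (continuous_mul_const _))
    (fun s hs => h1 s hs x hx) hy

theorem EV_D {c : A} (hc : c ∈ G.D) {x : B} (hx : x ∈ EV G n d π e) :
    π c * x ∈ EV G n d π e ∧ π c * x = x * π c := by
  constructor
  · refine EV_ind (S := {x | π c * x ∈ EV G n d π e})
      (EV_closed.preimage (continuous_const_mul _)) ?_ hx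
    intro r hr
    show π c * (e * π r * e) ∈ EV G n d π e
    have h2 : π c * (e * π r * e) = e * π (c * r) * e := by
      rw [← mul_assoc, ← mul_assoc, e_D h hc, mul_assoc e, ← map_mul]
    rw [h2]
    exact EV_mem (h.kf.cent c hc r hr).1
  · refine EV_ind (S := {x | π c * x = x * π c})
      (isClosed_eq (continuous_const_mul _) (continuous_mul_const _)) ?_ hx
    intro r hr
    show π c * (e * π r * e) = (e * π r * e) * π c
    calc π c * (e * π r * e) = (π c * e) * π r * e := by noncomm_ring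
      _ = e * (π c * π r) * e := by rw [e_D h hc]; noncomm_ring
      _ = e * (π r * π c) * e := by rw [← map_mul, (h.kf.cent c hc r hr).2, map_mul]
      _ = e * π r * (π c * e) := by noncomm_ring
      _ = (e * π r * e) * π c := by rw [e_D h hc]; noncomm_ring

theorem exists_w (ε : ℝ) (hε : 0 < ε) : ∃ w ∈ RR G n d, ‖e * π w * e - e‖ < ε := by
  let W : Submodule ℂ B := Submodule.map (pil π) (RR G n d)
  have hWmul : ∀ x ∈ W, ∀ y ∈ W, x * y ∈ W := fun x hx y hy => img_mul h hx hy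
  have hWstar : ∀ x ∈ W, star x ∈ W := by
    rintro _ ⟨r, hr, rfl⟩
    exact ⟨star r, h.kf.star r hr, map_star π r⟩
  have hcl : IsClosed ((subalg W hWmul hWstar : NonUnitalStarSubalgebra ℂ B) : Set B) := h.cl
  have hsa := h.cnr.e_sa
  let f : ℝ → ℝ := fun t => t / (t ^ 2 + ε ^ 2)
  have hden : ∀ t : ℝ, t ^ 2 + ε ^ 2 ≠ 0 := fun t => by positivity
  have hf : Continuous f := by
    show Continuous fun t : ℝ => t / (t ^ 2 + ε ^ 2)
    exact Continuous.div (by fun_prop) (by fun_prop) hden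
  have hf0 : f 0 = 0 := by simp [f]
  have hmem : cfcₙ f e ∈ subalg W hWmul hWstar :=
    cfcₙ_mem (𝕜 := ℝ) (𝕜' := ℂ) (s := subalg W hWmul hWstar) f
      (show e ∈ subalg W hWmul hWstar from e_img h)
  obtain ⟨w, hw, hwe⟩ := hmem
  have hwe' : π w = cfcₙ f e := hwe
  refine ⟨w, hw, ?_⟩
  have hid : cfcₙ (fun t : ℝ => t) e = e := cfcₙ_id' ℝ e hsa
  have h1 : cfcₙ (fun t : ℝ => t * f t) e = e * cfcₙ f e := by
    rw [cfcₙ_mul (fun t : ℝ => t) f e (by fun_prop) rfl hf.continuousOn hf0, hid]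
  have h2 : cfcₙ (fun t : ℝ => t * f t * t) e = e * cfcₙ f e * e := by
    rw [cfcₙ_mul (fun t : ℝ => t * f t) (fun t : ℝ => t) e (by fun_prop) (by simp)
      (by fun_prop) rfl, hid, h1]
  have h3 : cfcₙ (fun t : ℝ => t * f t * t - t) e = e * cfcₙ f e * e - e := by
    rw [cfcₙ_sub (fun t : ℝ => t * f t * t) (fun t : ℝ => t) e (by fun_prop) (by simp)
      (by fun_prop) rfl, hid, h2]
  rw [hwe', ← h3]
  refine lt_of_le_of_lt (norm_cfcₙ_le (c := ε / 2) fun t _ => ?_) (by linarith)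
  show |t * (t / (t ^ 2 + ε ^ 2)) * t - t| ≤ ε / 2
  have h4 : t * (t / (t ^ 2 + ε ^ 2)) * t - t = -(ε ^ 2 * t / (t ^ 2 + ε ^ 2)) := by
    field_simp
    ring
  rw [h4, abs_neg, abs_div, abs_of_pos (show 0 < t ^ 2 + ε ^ 2 by positivity),
    div_le_iff₀ (by positivity), abs_mul, abs_of_pos (show 0 < ε ^ 2 by positivity)]
  have h5 : 2 * ε * |t| ≤ t ^ 2 + ε ^ 2 := by
    have := sq_nonneg (|t| - ε)
    have h6 : |t| ^ 2 = t ^ 2 := sq_abs t
    nlinarith
  nlinarith [abs_nonneg t]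

theorem e_EV : e ∈ EV G n d π e := by
  have h1 : e ∈ closure (EV G n d π e : Set B) := by
    rw [Metric.mem_closure_iff]
    intro ε hε
    obtain ⟨w, hw, h2⟩ := exists_w h ε hε
    refine ⟨e * π w * e, EV_mem hw, ?_⟩
    rw [dist_comm, dist_eq_norm]
    exact h2
  rwa [EV_closed.closure_eq] at h1

theorem kap_e (a : A) : π (kap G n a) * e ∈ π '' (RR G n d : Set A) := by
  have hS : IsClosed {x : B | π (kap G n a) * x ∈ π '' (RR G n d : Set A)} :=
    h.cl.preimage (continuous_const_mul _)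
  refine closure_minimal ?_ hS h.cnr.e_mem
  rintro _ ⟨r, hr, rfl⟩
  refine ⟨kap G n a * g * (r * g), h.kf.mul _ (h.kf.kap_mem a g h.cnr.g_mem) _ (gR h hr), ?_⟩
  rw [map_mul, map_mul, map_mul]
  noncomm_ring

theorem z_EV (a : A) : e * π (kap G n a) * e ∈ EV G n d π e := by
  refine EV_ind (S := {x | e * π (kap G n a) * x ∈ EV G n d π e})
    (EV_closed.preimage (continuous_const_mul _)) ?_ (e_EV h)
  intro w hw
  obtain ⟨t, ht, he⟩ := img_mul h (kap_e h a) ⟨w, hw, rfl⟩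
  show e * π (kap G n a) * (e * π w * e) ∈ EV G n d π e
  have h2 : e * π (kap G n a) * (e * π w * e) = e * π t * e := by
    rw [he]
    noncomm_ring
  rw [h2]
  exact EV_mem ht

omit h

theorem EV_e {x : B} (hx : x ∈ EV G n d π e) : x ∈ closure {b : B | ∃ w, b = w * e} := by
  refine EV_ind isClosed_closure ?_ hx
  intro r _
  exact subset_closure ⟨e * π r, rfl⟩

end corner

/-! ## The cut-off -/

section cut

variable {B : Type} [NonUnitalCStarAlgebra B]

theorem exists_cut (V : Submodule ℂ B) (hV : IsClosed (V : Set B))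
    (hmul : ∀ x ∈ V, ∀ y ∈ V, x * y ∈ V) (hstar : ∀ x ∈ V, star x ∈ V) {z : B} (hz : z ∈ V)
    {T : ℝ} (hT0 : 0 ≤ T) (hT : T < ‖z‖ ^ 2) :
    ∃ p ∈ V, p ≠ 0 ∧ (∃ s, p = star s * s) ∧
      p * (star z * z) = (T : ℂ) • p + p * p := by
  let _ : PartialOrder B := CStarAlgebra.spectralOrder B
  have : StarOrderedRing B := CStarAlgebra.spectralOrderedRing B
  have hcl : IsClosed ((subalg V hmul hstar : NonUnitalStarSubalgebra ℂ B) : Set B) := hV
  set H := star z * z with hH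
  have hHV : H ∈ V := hmul _ (hstar z hz) z hz
  have hHsa : IsSelfAdjoint H := IsSelfAdjoint.star_mul_self z
  have hH0 : 0 ≤ H := star_mul_self_nonneg z
  let f : ℝ → ℝ := fun t => max (t - T) 0
  let k : ℝ → ℝ := fun t => Real.sqrt (max (t - T) 0)
  have hf : Continuous f := by fun_prop
  have hk : Continuous k := by fun_prop
  have hf0 : f 0 = 0 := by
    show max ((0 : ℝ) - T) 0 = 0
    exact max_eq_right (by linarith)
  have hk0 : k 0 = 0 := by
    show Real.sqrt (max ((0 : ℝ) - T) 0) = 0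
    rw [max_eq_right (by linarith), Real.sqrt_zero]
  have hmem : cfcₙ f H ∈ V := by
    have : cfcₙ f H ∈ subalg V hmul hstar :=
      cfcₙ_mem (𝕜 := ℝ) (𝕜' := ℂ) (s := subalg V hmul hstar) f
        (show H ∈ subalg V hmul hstar from hHV)
    exact this
  have hid : cfcₙ (fun t : ℝ => t) H = H := cfcₙ_id' ℝ H hHsa
  refine ⟨cfcₙ f H, hmem, ?_, ⟨cfcₙ k H, ?_⟩, ?_⟩
  · intro h0
    have h1 : ‖H‖ ≤ T := by
      rw [← hid]
      refine norm_cfcₙ_le fun t ht => ?_
      have ht0 : 0 ≤ t := quasispectrum_nonneg_of_nonneg H hH0 t ht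
      have h2 : ‖f t‖ ≤ ‖cfcₙ f H‖ :=
        norm_apply_le_norm_cfcₙ f H ht hf.continuousOn hf0 hHsa
      rw [h0, norm_zero] at h2
      have h3 : f t = 0 := norm_eq_zero.1 (le_antisymm h2 (norm_nonneg _))
      have h4 : t - T ≤ f t := le_max_left _ _
      rw [h3] at h4
      rw [Real.norm_of_nonneg ht0]
      linarith
    rw [hH, CStarRing.norm_star_mul_self, ← sq] at h1
    linarith
  · have hks : IsSelfAdjoint (cfcₙ k H) := IsSelfAdjoint.cfcₙ
    rw [hks.star_eq, ← cfcₙ_mul k k H hk.continuousOn hk0 hk.continuousOn hk0]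
    congr 1
    funext t
    show max (t - T) 0 = Real.sqrt (max (t - T) 0) * Real.sqrt (max (t - T) 0)
    rw [Real.mul_self_sqrt (le_max_right _ _)]
  · have h1 : cfcₙ (fun t : ℝ => f t * t) H = cfcₙ f H * H := by
      rw [cfcₙ_mul f (fun t : ℝ => t) H hf.continuousOn hf0 (by fun_prop) rfl, hid]
    have h2 : cfcₙ (fun t : ℝ => f t * f t) H = cfcₙ f H * cfcₙ f H := by
      rw [cfcₙ_mul f f H hf.continuousOn hf0 hf.continuousOn hf0]
    have h3 : cfcₙ (fun t : ℝ => T * f t) H = (T : ℝ) • cfcₙ f H := by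
      rw [cfcₙ_const_mul T f H hf.continuousOn hf0]
    have h4 : cfcₙ (fun t : ℝ => T * f t + f t * f t) H =
        (T : ℝ) • cfcₙ f H + cfcₙ f H * cfcₙ f H := by
      rw [cfcₙ_add (a := H) (f := fun t : ℝ => T * f t) (g := fun t : ℝ => f t * f t)
        (by fun_prop) (by simp [hf0]) (by fun_prop) (by simp [hf0]), h3, h2]
    rw [← h1, Complex.coe_smul, ← h4]
    congr 1
    funext t
    show max (t - T) 0 * t = T * max (t - T) 0 + max (t - T) 0 * max (t - T) 0
    rcases le_total (t - T) 0 with h | h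
    · rw [max_eq_right h]; ring
    · rw [max_eq_left h]; ring

end cut

/-! ## The estimate -/

section main

variable {A B : Type} [NonUnitalCStarAlgebra A] [NonUnitalCStarAlgebra B]
  {G : Diag A} {m : ℕ} {n : Fin m → A} {d u g : A} {e : B} {π : A →⋆ₙₐ[ℂ] B}

/-- The point of `G` given by a character. -/
def mkPt (V : Submodule ℂ B) (ψ : B →ₗ[ℂ] ℂ) (v : B) (hstar : ∀ x ∈ V, star x ∈ V)
    (hb : ∀ b, ‖ψ b‖ ≤ ‖b‖) (hp : ∀ b, 0 ≤ ψ (star b * b))
    (hm : ∀ x ∈ V, ∀ y ∈ V, ψ (x * y) = ψ x * ψ y) (hv : v ∈ V) (hv1 : ψ v = 1)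
    (hU : ∀ x, ψ (x * v) = ψ x ∧ ψ (v * x) = ψ x)
    (hD : ∀ c ∈ G.D, ∀ x ∈ V, π c * x ∈ V) (hnz : ∃ c ∈ G.D, ψ (π c) ≠ 0) : G.Pt where
  toFun := ψ.comp (pil π)
  bound b := (hb (π b)).trans (NonUnitalStarAlgHom.norm_apply_le π b)
  pos b := by
    show 0 ≤ ψ (π (star b * b))
    rw [map_mul, map_star]
    exact hp (π b)
  mult c hc c' hc' := by
    rw [fgr_one] at hc hc'
    show ψ (π (c * c')) = ψ (π c) * ψ (π c')
    have h1 : π c' * v ∈ V := hD c' hc' v hv
    rw [map_mul, ← (hU (π c * π c')).1, mul_assoc,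
      char_mulR hstar hp hm hv hv1 hU h1 (π c), (hU (π c')).1]
  nz := by
    obtain ⟨c, hc, h⟩ := hnz
    exact ⟨c, by rw [fgr_one]; exact hc, h⟩

theorem key (hNF : NF G) (h : Bas G n d u π g e)
    (hNSP : ∀ a ∈ RR G n d, π a ≠ 0 → π a ∈ closure {b : B | ∃ w, b = w * e} →
      ∃ c ∈ G.D, d * c ≠ 0 ∧ ∀ c' ∈ G.D, d * c * c' ≠ 0 → π (a * (d * c * c')) ≠ 0)
    (hGDS : ∀ s : Finset A, (∀ l ∈ s, l ∈ G.N) → ∀ c ∈ G.D, d * c ≠ 0 →
      ∃ c' ∈ G.D, d * c * c' ≠ 0 ∧ ∀ l ∈ s,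
        l * (d * c * c') = kap G n l * (d * c * c') ∨
          ∀ φ : G.Pt, φ (d * c * c') ≠ 0 → ¬ Iso G φ l)
    {k : ℕ} (l : Fin k → A) (hl : ∀ i, l i ∈ G.N) :
    ‖e * π (kap G n (∑ i, l i)) * e‖ ≤ ‖e * π (∑ i, l i) * e‖ := by
  classical
  by_contra hcon
  push Not at hcon
  set a := ∑ i, l i with ha
  set y := e * π a * e with hy
  set z := e * π (kap G n a) * e with hz
  have hzV : z ∈ EV G n d π e := z_EV h a
  have hyz : ‖y‖ ^ 2 < ‖z‖ ^ 2 := pow_lt_pow_left₀ hcon (norm_nonneg _) two_ne_zero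
  obtain ⟨T, hT1, hT2⟩ := exists_between hyz
  have hT0 : 0 ≤ T := (sq_nonneg ‖y‖).trans hT1.le
  obtain ⟨p, hpV, hp0, ⟨s, hps⟩, hpH⟩ := exists_cut (EV G n d π e) EV_closed (EV_mul h)
    (EV_star h) hzV hT0 hT2
  obtain ⟨ap, hap, hap'⟩ := EV_img h hpV
  obtain ⟨c, hc, hdc, hc2⟩ := hNSP ap hap (by rw [hap']; exact hp0) (by rw [hap']; exact EV_e hpV)
  obtain ⟨c', hc', hdc', hdec⟩ := hGDS (Finset.univ.image l) (by
    intro x hx
    obtain ⟨i, -, rfl⟩ := Finset.mem_image.1 hx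
    exact hl i) c hc hdc
  set c'' := d * c * c' with hc''
  have hdD : d ∈ G.D := h.cnr.kd.d_mem
  have hcD : c'' ∈ G.D := G.D_mul _ (G.D_mul d hdD c hc) c' hc'
  have hcDd : c'' ∈ Dd G d := by
    refine Submodule.le_topologicalClosure _ ⟨c * c', G.D_mul c hc c' hc', ?_⟩
    show d * (c * c') = c''
    rw [hc'', mul_assoc]
  set q := p * π c'' with hq
  have hq0 : q ≠ 0 := by
    rw [hq, ← hap', ← map_mul]
    exact hc2 c' hc' hdc'
  have hqV : q ∈ EV G n d π e := by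
    have h1 := EV_D h hcD hpV
    rw [hq, ← h1.2]
    exact h1.1
  obtain ⟨ψ, hb, hpos, hm, hψq⟩ := exists_char (EV G n d π e) EV_closed (EV_mul h)
    (EV_star h) (EV_comm h) hqV hq0
  obtain ⟨v, hvV, hvsa, hv1, hU⟩ := exists_v EV_closed (EV_mul h) (EV_star h) hb hpos hm hqV hψq
  have mulL : ∀ w ∈ EV G n d π e, ∀ x, ψ (w * x) = ψ w * ψ x := fun w hw x =>
    char_mulL (EV_star h) hpos hm hvV hv1 hU hw x
  have mulR : ∀ w ∈ EV G n d π e, ∀ x, ψ (x * w) = ψ x * ψ w := fun w hw x =>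
    char_mulR (EV_star h) hpos hm hvV hv1 hU hw x
  have hq' : ψ q = ψ p * ψ (π c'') := mulL p hpV _
  have hψp : ψ p ≠ 0 := by
    intro h0
    rw [hq', h0, zero_mul] at hψq
    exact hψq rfl
  have hψc : ψ (π c'') ≠ 0 := by
    intro h0
    rw [hq', h0, mul_zero] at hψq
    exact hψq rfl
  let φ : G.Pt := mkPt (π := π) (EV G n d π e) ψ v (EV_star h) hb hpos hm hvV hv1 hU
    (fun c hc x hx => (EV_D h hc hx).1) ⟨c'', hcD, hψc⟩
  have hφ : ∀ x, φ x = ψ (π x) := fun x => rfl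
  have hφc : φ c'' ≠ 0 := hψc
  have hli : ∀ i, φ (l i) = φ (kap G n (l i)) := by
    intro i
    rcases hdec (l i) (Finset.mem_image.2 ⟨i, Finset.mem_univ i, rfl⟩) with h1 | h1
    · have h2 : φ (l i * c'') = φ (kap G n (l i) * c'') := by rw [h1]
      rw [hNF.mulR φ c'' hcD, hNF.mulR φ c'' hcD] at h2
      exact mul_right_cancel₀ hφc h2
    · have h2 : φ (l i) = 0 := hNF.van φ (l i) (hl i) (h1 φ hφc)
      have h3 : kap G n (l i) * c'' = 0 := h.kf.kap_zero (l i) (hl i) c'' hcDd h1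
      have h4 : φ (kap G n (l i) * c'') = 0 := by
        rw [h3]
        exact map_zero φ.toFun
      rw [hNF.mulR φ c'' hcD] at h4
      rcases mul_eq_zero.1 h4 with h5 | h5
      · rw [h2, h5]
      · exact absurd h5 hφc
  have hsum : φ a = φ (kap G n a) := by
    rw [ha, map_sum (kap G n)]
    have e1 : φ (∑ i, l i) = ∑ i, φ (l i) := map_sum φ.toFun _ _
    have e2 : φ (∑ i, kap G n (l i)) = ∑ i, φ (kap G n (l i)) := map_sum φ.toFun _ _
    rw [e1, e2]
    exact Finset.sum_congr rfl fun i _ => hli i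
  have hcomp : ∀ x, ψ (e * π x * e) = ψ e * φ x * ψ e := by
    intro x
    rw [mulR e (e_EV h), mulL e (e_EV h), hφ]
  have hψyz : ψ y = ψ z := by
    rw [hy, hz, hcomp, hcomp, hsum]
  -- the value at the cut-off
  have hH : ψ (star z * z) = (T : ℂ) + ψ p := by
    have h1 : ψ (p * (star z * z)) = ψ ((T : ℂ) • p + p * p) := by rw [hpH]
    rw [mulL p hpV, map_add, map_smul, mulL p hpV, smul_eq_mul] at h1
    have h2 : ψ p * ψ (star z * z) = ψ p * ((T : ℂ) + ψ p) := by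
      rw [h1]
      ring
    exact mul_left_cancel₀ hψp h2
  have hstarz : ψ (star z) = star (ψ z) := by
    have h1 := Pool.Agent.Helper49.Uct3.pos_conj hpos z v
    rw [hvsa.star_eq, (hU z).2, (hU (star z)).1] at h1
    exact h1.symm
  have hH2 : ψ (star z * z) = ((‖ψ z‖ ^ 2 : ℝ) : ℂ) := by
    rw [mulR z hzV, hstarz]
    have := Complex.conj_mul' (ψ z)
    rw [Complex.ofReal_pow]
    exact this
  have hpre : 0 ≤ (ψ p).re := by
    rw [hps]
    exact (Complex.nonneg_iff.1 (hpos s)).1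
  have h5 : ‖ψ z‖ ^ 2 = T + (ψ p).re := by
    have h6 := congrArg Complex.re (hH2.symm.trans hH)
    rwa [Complex.ofReal_re, Complex.add_re, Complex.ofReal_re] at h6
  have h7 : ‖ψ z‖ ^ 2 ≤ ‖y‖ ^ 2 := by
    rw [← hψyz]
    exact pow_le_pow_left₀ (norm_nonneg _) (hb y) 2
  linarith

/-- Elements of the span of `N` are finite sums of elements of `N`. -/
theorem span_sum (G : Diag A) {a : A} (ha : a ∈ Submodule.span ℂ G.N) :
    ∃ (k : ℕ) (l : Fin k → A), (∀ i, l i ∈ G.N) ∧ ∑ i, l i = a := by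
  obtain ⟨k, f, x, hx⟩ := Submodule.mem_span_set'.1 ha
  exact ⟨k, fun i => f i • (x i : A), fun i => G.N_smul _ _ (x i).2, hx⟩

/-- CEX. -/
theorem cex (hNF : S_NF) (hKF : S_KF) (hGDS : S_GDS) (hPCL : S_PCL) (hNSP : S_NSP) :
    S_CEX := by
  intro A B _ _ G π m n d u g e hC a
  have hB : Bas G n d u π g e :=
    { cnr := hC
      kf := hKF A G hC.comm m n d u hC.kd
      dd := by
        intro x hx
        have hle : Dd G d ≤ G.D := by
          refine Submodule.topologicalClosure_minimal _ ?_ G.closed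
          rintro _ ⟨y, hy, rfl⟩
          exact G.D_mul d hC.kd.d_mem y hy
        exact hle hx
      cl := hPCL A B G π hC.comm m n d u hC.kd }
  obtain ⟨C, hCb⟩ := hB.kf.kap_bound
  have hkc : Continuous (kap G n) := by
    have : Continuous (LinearMap.mkContinuous (kap G n) C hCb) :=
      ContinuousLinearMap.continuous _
    exact this
  have hpc : Continuous π := Pool.Agent.Helper43.Uct.cont_hom π
  have hcl : IsClosed {a : A | ‖e * π (kap G n a) * e‖ ≤ ‖e * π a * e‖} := by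
    refine isClosed_le ?_ ?_
    · exact ((continuous_const.mul (hpc.comp hkc)).mul continuous_const).norm
    · exact ((continuous_const.mul hpc).mul continuous_const).norm
  have hsub : (Submodule.span ℂ G.N : Set A) ⊆
      {a : A | ‖e * π (kap G n a) * e‖ ≤ ‖e * π a * e‖} := by
    intro a ha
    obtain ⟨k, l, hl, rfl⟩ := span_sum G ha
    exact key (hNF A G hC.comm) hB (hNSP A B G π m n d u g e hC)
      (hGDS A G hC.comm m n d u hC.kd) l hl
  have h1 : a ∈ (Submodule.span ℂ G.N).topologicalClosure := by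
    rw [G.dense]
    trivial
  exact closure_minimal hsub hcl h1

end main

end Pool.Agent.Helper50.Ucg
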