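import Pool.Agent.Helper68.Ucg.Goals

/-!
# Packet CEX, first part: characters of a commutative subalgebra extend
-/

set_option autoImplicit false

open scoped ComplexOrder

namespace Pool.Agent.Helper50.Ucg

open Pool.Agent.Helper39.Uct Pool.Agent.Helper68.Ucg

section unitization

variable {B : Type} [NonUnitalCStarAlgebra B] (V : Submodule ℂ B)
  (hmul : ∀ x ∈ V, ∀ y ∈ V, x * y ∈ V) (hstar : ∀ x ∈ V, star x ∈ V)

/-- The unitization of the subalgebra inside the unitization of `B`. -/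
def SubV : StarSubalgebra ℂ (Unitization ℂ B) where
  carrier := {x | x.snd ∈ V}
  mul_mem' := by
    intro x y hx hy
    show (x * y).snd ∈ V
    rw [Unitization.snd_mul]
    exact V.add_mem (V.add_mem (V.smul_mem _ hy) (V.smul_mem _ hx)) (hmul _ hx _ hy)
  add_mem' := by
    intro x y hx hy
    show (x + y).snd ∈ V
    rw [Unitization.snd_add]
    exact V.add_mem hx hy
  algebraMap_mem' := by
    intro r
    show (algebraMap ℂ (Unitization ℂ B) r).snd ∈ V
    rw [Unitization.algebraMap_eq_inl, Unitization.snd_inl]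
    exact V.zero_mem
  star_mem' := by
    intro x hx
    show (star x).snd ∈ V
    rw [Unitization.snd_star]
    exact hstar _ hx

theorem mem_SubV {x : Unitization ℂ B} : x ∈ SubV V hmul hstar ↔ x.snd ∈ V := Iff.rfl

theorem isClosed_SubV (hV : IsClosed (V : Set B)) :
    IsClosed (SubV V hmul hstar : Set (Unitization ℂ B)) :=
  hV.preimage Unitization.continuous_snd

/-- The commutative unital C*-algebra `SubV`. -/
@[reducible] noncomputable def commSubV (hV : IsClosed (V : Set B))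
    (hcomm : ∀ x ∈ V, ∀ y ∈ V, x * y = y * x) : CommCStarAlgebra (SubV V hmul hstar) :=
  haveI : IsClosed (SubV V hmul hstar : Set (Unitization ℂ B)) :=
    isClosed_SubV V hmul hstar hV
  { StarSubalgebra.cstarAlgebra (SubV V hmul hstar) with
    mul_comm := by
      rintro ⟨x, hx⟩ ⟨y, hy⟩
      apply Subtype.ext
      show x * y = y * x
      apply Unitization.ext
      · rw [Unitization.fst_mul, Unitization.fst_mul, mul_comm]
      · rw [Unitization.snd_mul, Unitization.snd_mul, hcomm _ hx _ hy]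
        congr 1
        rw [add_comm] }

end unitization

/-- A nonzero element of a commutative closed *-subalgebra is not killed by some positive
functional of norm at most one that is multiplicative on the subalgebra. -/
theorem exists_char {B : Type} [NonUnitalCStarAlgebra B] (V : Submodule ℂ B)
    (hV : IsClosed (V : Set B)) (hmul : ∀ x ∈ V, ∀ y ∈ V, x * y ∈ V)
    (hstar : ∀ x ∈ V, star x ∈ V) (hcomm : ∀ x ∈ V, ∀ y ∈ V, x * y = y * x)
    {c : B} (hc : c ∈ V) (hc0 : c ≠ 0) :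
    ∃ ψ : B →ₗ[ℂ] ℂ, (∀ b, ‖ψ b‖ ≤ ‖b‖) ∧ (∀ b, 0 ≤ ψ (star b * b)) ∧
      (∀ x ∈ V, ∀ y ∈ V, ψ (x * y) = ψ x * ψ y) ∧ ψ c ≠ 0 := by
  let _ : CommCStarAlgebra (SubV V hmul hstar) := commSubV V hmul hstar hV hcomm
  have hcS : (c : Unitization ℂ B) ∈ SubV V hmul hstar := by
    rw [mem_SubV, Unitization.snd_inr]
    exact hc
  set s : SubV V hmul hstar := ⟨(c : Unitization ℂ B), hcS⟩ with hs
  have hns : ‖s‖ = ‖c‖ := Unitization.norm_inr (𝕜 := ℂ) c
  have hs0 : s ≠ 0 := by
    intro h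
    rw [h, norm_zero] at hns
    exact hc0 (norm_eq_zero.1 hns.symm)
  have : Nontrivial (SubV V hmul hstar) := ⟨⟨s, 0, hs0⟩⟩
  -- a character attaining the norm
  obtain ⟨χ, hχ⟩ : ∃ χ : WeakDual.characterSpace ℂ (SubV V hmul hstar), ‖χ s‖ = ‖s‖ := by
    have h1 : ‖WeakDual.gelfandTransform ℂ (SubV V hmul hstar) s‖ = ‖s‖ :=
      (AddMonoidHomClass.isometry_iff_norm _).1
        (gelfandTransform_isometry (SubV V hmul hstar)) s
    obtain ⟨χ, -, hχ⟩ := IsCompact.exists_isMaxOn
      (isCompact_univ (X := WeakDual.characterSpace ℂ (SubV V hmul hstar)))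
      Set.univ_nonempty
      (f := fun χ => ‖WeakDual.gelfandTransform ℂ (SubV V hmul hstar) s χ‖) (by fun_prop)
    refine ⟨χ, le_antisymm ?_ ?_⟩
    · rw [← h1]
      exact ContinuousMap.norm_coe_le_norm
        (WeakDual.gelfandTransform ℂ (SubV V hmul hstar) s) χ
    · rw [← h1]
      rw [ContinuousMap.norm_le _ (norm_nonneg _)]
      intro χ'
      exact hχ (Set.mem_univ χ')
  have hb : ∀ x : SubV V hmul hstar, ‖χ x‖ ≤ ‖x‖ := by
    intro x
    exact spectrum.norm_le_norm_of_mem (AlgHom.apply_mem_spectrum χ x)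
  -- Hahn-Banach
  let p : Submodule ℂ (Unitization ℂ B) :=
    Subalgebra.toSubmodule (SubV V hmul hstar).toSubalgebra
  let f₀ : p →ₗ[ℂ] ℂ :=
    { toFun := fun x => χ (⟨x.1, x.2⟩ : SubV V hmul hstar)
      map_add' := fun x y => map_add χ (⟨x.1, x.2⟩ : SubV V hmul hstar)
        (⟨y.1, y.2⟩ : SubV V hmul hstar)
      map_smul' := fun r x => map_smul χ r (⟨x.1, x.2⟩ : SubV V hmul hstar) }
  let f : StrongDual ℂ p := f₀.mkContinuous 1 (fun x => by
    rw [one_mul]
    exact hb (⟨x.1, x.2⟩ : SubV V hmul hstar))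
  obtain ⟨g, hg, hgn⟩ := exists_extension_norm_eq p f
  have hgn1 : ‖g‖ ≤ 1 := by
    rw [hgn]
    exact LinearMap.mkContinuous_norm_le _ zero_le_one _
  have hgS : ∀ (x : Unitization ℂ B) (hx : x ∈ SubV V hmul hstar),
      g x = χ (⟨x, hx⟩ : SubV V hmul hstar) :=
    fun x hx => hg ⟨x, hx⟩
  have hg1 : g 1 = 1 := by
    rw [hgS 1 (SubV V hmul hstar).one_mem]
    exact map_one χ
  have hgc : ∀ (x : B) (hx : x ∈ V), g (x : Unitization ℂ B) =
      χ (⟨(x : Unitization ℂ B), by rw [mem_SubV, Unitization.snd_inr]; exact hx⟩ :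
        SubV V hmul hstar) :=
    fun x hx => hgS _ _
  refine ⟨g.toLinearMap ∘ₗ (Unitization.inrHom ℂ ℂ B), ?_, ?_, ?_, ?_⟩
  · intro b
    show ‖g (b : Unitization ℂ B)‖ ≤ ‖b‖
    refine (g.le_opNorm _).trans ?_
    rw [Unitization.norm_inr]
    calc ‖g‖ * ‖b‖ ≤ 1 * ‖b‖ := mul_le_mul_of_nonneg_right hgn1 (norm_nonneg b)
      _ = ‖b‖ := one_mul _
  · intro b
    show 0 ≤ g ((star b * b : B) : Unitization ℂ B)
    rw [Unitization.inr_mul, Unitization.inr_star]
    exact Pool.Agent.Helper93.Uct.nonneg_of_norm g hgn1 hg1 _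
  · intro x hx y hy
    show g ((x * y : B) : Unitization ℂ B) = g (x : Unitization ℂ B) * g (y : Unitization ℂ B)
    rw [hgc _ (hmul x hx y hy), hgc _ hx, hgc _ hy, ← map_mul]
    congr 1
    apply Subtype.ext
    exact Unitization.inr_mul ℂ x y
  · show g (c : Unitization ℂ B) ≠ 0
    intro h0
    rw [hgc _ hc] at h0
    have : ‖χ s‖ = 0 := by rw [h0, norm_zero]
    rw [hχ, hns] at this
    exact hc0 (norm_eq_zero.1 this)

end Pool.Agent.Helper50.Ucg
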